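import Pool.Agent.H10.BK1

namespace Pool.Agent.Results.MP_b4ec01_an.NotIsoOmega

open Pool.Agent.H10.BK

theorem result (κ : Type) [Uncountable κ] :
    IsEmpty (C(B κ, ℝ) ≃L[ℝ] C(ℕ → B κ, ℝ)) ∧
    ∀ T : C(ℕ → B κ, ℝ) →L[ℝ] C(B κ, ℝ), ¬ ∃ c : ℝ, 0 < c ∧ ∀ f, c * ‖f‖ ≤ ‖T f‖ := by
  have key : ∀ T : C(ℕ → B κ, ℝ) →L[ℝ] C(B κ, ℝ), ¬ ∃ c : ℝ, 0 < c ∧ ∀ f, c * ‖f‖ ≤ ‖T f‖ := by
    rintro T ⟨c, hc, hT⟩
    let e : ℕ → κ → C(ℕ → B κ, ℝ) := fun l γ => ⟨fun x => (x l).1 γ,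
      (continuous_apply γ).comp (continuous_subtype_val.comp (continuous_apply l))⟩
    refine no_embed e (fun l F x => (x l).2 F) (fun n c => ?_) T hc hT
    classical
    let x : ℕ → B κ := fun l => if h : l < n then
      ⟨pt (fun _ : Unit => c ⟨l, h⟩) fun _ => 1, pt_mem _ _ (by simp)⟩ else
      ⟨0, fun F => by simp⟩
    have hx : ∀ l : Fin n, e l (c l) x = 1 := fun l => by
      change (x l).1 (c l) = 1
      simp only [x, dif_pos l.2]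
      exact pt_self (c := fun _ : Unit => c l) _ () fun _ _ => rfl
    refine le_trans (le_of_eq ?_) ((le_abs_self _).trans
      ((∑ l : Fin n, e l (c l)).norm_coe_le_norm x))
    rw [ContinuousMap.sum_apply, Finset.sum_congr rfl fun l _ => hx l]
    simp
  refine ⟨⟨fun T => key T.symm ⟨(‖(T : C(B κ, ℝ) →L[ℝ] C(ℕ → B κ, ℝ))‖ + 1)⁻¹, ?_, fun f => ?_⟩⟩, key⟩
  · have := (T : C(B κ, ℝ) →L[ℝ] C(ℕ → B κ, ℝ)).opNorm_nonneg
    positivity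
  · have h0 := (T : C(B κ, ℝ) →L[ℝ] C(ℕ → B κ, ℝ)).opNorm_nonneg
    have h := (T : C(B κ, ℝ) →L[ℝ] C(ℕ → B κ, ℝ)).le_opNorm (T.symm f)
    rw [inv_mul_le_iff₀ (by positivity)]
    simp only [ContinuousLinearEquiv.coe_coe, ContinuousLinearEquiv.apply_symm_apply] at h ⊢
    nlinarith [norm_nonneg (T.symm f)]

end Pool.Agent.Results.MP_b4ec01_an.NotIsoOmega
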